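import Pool.Agent.H87.MZ.Tup

/-!
# Zeros of L-functions, equal densities: module KK0
helper87
-/

set_option autoImplicit false

open Complex MeasureTheory Set Filter Topology

namespace Pool.Agent.H87.MZ

open Pool.Agent.H25.DL Pool.Agent.H25.MZ Pool.Agent.H11.DL

theorem norm_cexp_sub_le (a b : ℝ) : ‖cexp ((a : ℝ) * I) - cexp ((b : ℝ) * I)‖ ≤ |a - b| := by
  have h1 : cexp ((a : ℝ) * I) - cexp ((b : ℝ) * I) =
      cexp ((b : ℝ) * I) * (cexp (I * ((a - b : ℝ) : ℂ)) - 1) := by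
    rw [mul_sub, ← Complex.exp_add, mul_one]
    congr 2
    push_cast
    ring
  rw [h1, norm_mul, Complex.norm_exp_ofReal_mul_I, one_mul]
  exact (Real.norm_exp_I_mul_ofReal_sub_one_le).trans (le_of_eq (Real.norm_eq_abs _))

theorem log_sub_le {u y T R : ℝ} (hR : 0 ≤ R) (hRT : R < T) (hu : T ≤ u) (hy : |y| ≤ R) :
    |Real.log (u + y) - Real.log u| ≤ R / (T - R) := by
  have hy' := abs_le.1 hy
  have h1 : 0 < T - R := by linarith
  have h2 : 0 < u + y := by linarith
  have h3 : 0 < u := by linarith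
  rw [abs_le]
  constructor
  · have h4 := Real.log_le_sub_one_of_pos (show 0 < u / (u + y) by positivity)
    rw [Real.log_div h3.ne' h2.ne'] at h4
    have h5 : u / (u + y) - 1 = -y / (u + y) := by field_simp; ring
    rw [h5] at h4
    have h6 : -y / (u + y) ≤ R / (T - R) :=
      div_le_div₀ hR (by linarith) h1 (by linarith)
    linarith
  · have h4 := Real.log_le_sub_one_of_pos (show 0 < (u + y) / u by positivity)
    rw [Real.log_div h2.ne' h3.ne'] at h4
    have h5 : (u + y) / u - 1 = y / u := by field_simp; ring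
    rw [h5] at h4
    have h6 : y / u ≤ R / (T - R) := div_le_div₀ hR (by linarith) h1 (by linarith)
    linarith

theorem continuousOn_Y0 {Y : ℂ → ℂ} {κ : ℂ} {B η t₀ : ℝ} (hY : Ph0 Y κ B η t₀) (b u R : ℝ)
    (h : t₀ ≤ u - R) :
    ContinuousOn (fun y : ℝ => Y (b + (u + y : ℝ) * I)) (Icc (-R) R) := by
  intro y hy
  have h1 : t₀ ≤ ((b : ℂ) + (u + y : ℝ) * I).im := by
    simp
    linarith [hy.1]
  have h2 := (hY.diff _ h1).continuousAt
  exact (ContinuousAt.comp (f := fun y : ℝ => (b : ℂ) + (u + y : ℝ) * I) h2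
    (continuous_line b u).continuousAt).continuousWithinAt

/-- one tuple -/
theorem one_tuple {Y : ℂ → ℂ} {κ : ℂ} {B η t₀ C C' β ν T R u : ℝ} (hY : Ph0 Y κ B η t₀)
    (hβ : 0 < β) (hν : 0 ≤ ν) (hC : 0 < C)
    (hgrow : ∀ σ t : ℝ, 1 / 2 ≤ σ → σ ≤ 1 / 2 + β → t₀ ≤ t → ‖Y (σ + t * I)‖ ≤ C)
    (hmain : ∀ t : ℝ, t₀ ≤ t →
      ‖Y (1 / 2 + t * I) - κ * cexp ((B * t + η * Real.log t : ℝ) * I)‖ ≤ C' / t)
    (hR : 0 ≤ R) (hRT : R < T) (hT : t₀ ≤ T - R) (hu : T ≤ u) :
    ‖(∫ y in (-R)..R, cexp (-(ν : ℂ) * (β + (u + y : ℝ) * I)) *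
        Y (1 / 2 + β + (u + y : ℝ) * I) * gs β (β + y * I)) -
      κ * cexp ((η * Real.log u : ℝ) * I) * (cexp (((B - ν) * u : ℝ) * I) *
        Real.exp (-((B - ν) * β) ^ 2 / 4))‖ ≤
      2 * β * (C * (Real.exp (1 - 1 / β ^ 2 * R ^ 2) / (β * Real.sqrt Real.pi))) +
      (|C'| / (T - R) + |η| * (R / (T - R))) +
      ‖(∫ y in (-R)..R, cexp (((B - ν : ℝ) : ℂ) * ((0 : ℝ) + y * I)) * gs β ((0 : ℝ) + y * I)) -
        Real.exp (-((B - ν) * β) ^ 2 / 4)‖ := by
  have hπ : 0 < Real.sqrt Real.pi := Real.sqrt_pos.2 Real.pi_pos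
  have hRR : -R ≤ R := by linarith
  have hTR : 0 < T - R := by linarith
  have ht₀ : t₀ ≤ u - R := by linarith
  set F : ℂ → ℂ := fun s => cexp (-(ν : ℂ) * (s - 1 / 2)) * Y s * gs β (s - 1 / 2 - u * I) with hF
  have hside : ∀ (x t : ℝ), 1 / 2 ≤ x → x ≤ 1 / 2 + β → |t| = R →
      ‖F (x + (u + t : ℝ) * I)‖ ≤
        C * (Real.exp (1 - 1 / β ^ 2 * R ^ 2) / (β * Real.sqrt Real.pi)) := by
    intro x t hx1 hx2 ht
    have ht' : -R ≤ t ∧ t ≤ R := by
      rw [← abs_le]; exact ht.le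
    simp only [hF]
    rw [norm_mul, norm_mul]
    refine mul_le_mul ?_ ?_ (norm_nonneg _) hC.le
    · have h1 : ‖cexp (-(ν : ℂ) * ((x : ℂ) + (u + t : ℝ) * I - 1 / 2))‖ ≤ 1 := by
        rw [Complex.norm_exp]
        have h2 : (-(ν : ℂ) * ((x : ℂ) + (u + t : ℝ) * I - 1 / 2)).re = -(ν * (x - 1 / 2)) := by
          simp
        rw [h2]
        have : 0 ≤ ν * (x - 1 / 2) := mul_nonneg hν (by linarith)
        exact Real.exp_le_one_iff.2 (by linarith)
      calc ‖cexp (-(ν : ℂ) * ((x : ℂ) + (u + t : ℝ) * I - 1 / 2))‖ * ‖Y (x + (u + t : ℝ) * I)‖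
          ≤ 1 * C := mul_le_mul h1 (hgrow x (u + t) hx1 hx2 (by linarith [ht'.1]))
            (norm_nonneg _) zero_le_one
        _ = C := one_mul C
    · have h1 : ((x : ℂ) + (u + t : ℝ) * I - 1 / 2 - u * I) = ((x - 1 / 2 : ℝ) : ℂ) + t * I := by
        push_cast; ring
      rw [h1, norm_gs hβ]
      refine div_le_div_of_nonneg_right (Real.exp_le_exp.2 ?_) (by positivity)
      have h2 : t ^ 2 = R ^ 2 := by rw [← sq_abs, ht]
      rw [h2, sub_div]
      have h3 : (x - 1 / 2) ^ 2 / β ^ 2 ≤ 1 := by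
        rw [div_le_one (by positivity)]
        exact pow_le_pow_left₀ (by linarith) (by linarith) 2
      have h4 : R ^ 2 / β ^ 2 = 1 / β ^ 2 * R ^ 2 := by ring
      rw [h4]
      linarith
  have hdiff : ∀ s : ℂ, 1 / 2 ≤ s.re → s.re ≤ 1 / 2 + β → |s.im - u| ≤ R →
      DifferentiableAt ℂ F s := by
    intro s _ _ h3
    have h4 := abs_le.1 h3
    have h5 : DifferentiableAt ℂ Y s := hY.diff s (by linarith [h4.1])
    have h6 : DifferentiableAt ℂ (fun s : ℂ => gs β (s - 1 / 2 - u * I)) s := by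
      have := differentiable_gs β (s - 1 / 2 - u * I)
      exact this.comp (f := fun s : ℂ => s - 1 / 2 - u * I) s (by fun_prop)
    have h7 : DifferentiableAt ℂ (fun s : ℂ => cexp (-(ν : ℂ) * (s - 1 / 2))) s := by fun_prop
    exact (h7.mul h5).mul h6
  have key := shift_rect F (a := 1 / 2) (b := 1 / 2 + β) (u := u) (R := R) (by linarith) hR
    hdiff (fun x hx1 hx2 => by
      have := hside x (-R) hx1 hx2 (by rw [abs_neg, abs_of_nonneg hR])
      rwa [← sub_eq_add_neg] at this)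
    (fun x hx1 hx2 => hside x R hx1 hx2 (abs_of_nonneg hR))
  -- the two sides
  have e1 : (∫ y in (-R)..R, cexp (-(ν : ℂ) * (β + (u + y : ℝ) * I)) *
        Y (1 / 2 + β + (u + y : ℝ) * I) * gs β (β + y * I)) =
      ∫ y in (-R)..R, F (((1 / 2 + β : ℝ) : ℂ) + (u + y : ℝ) * I) := by
    refine intervalIntegral.integral_congr fun y _ => ?_
    simp only [hF]
    rw [show (((1 / 2 + β : ℝ) : ℂ) + (u + y : ℝ) * I) = 1 / 2 + β + (u + y : ℝ) * I by
        push_cast; ring,
      show (1 / 2 + β + (u + y : ℝ) * I - 1 / 2 - u * I : ℂ) = β + y * I by push_cast; ring,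
      show (1 / 2 + β + (u + y : ℝ) * I - 1 / 2 : ℂ) = β + (u + y : ℝ) * I by ring]
  set A : ℝ → ℂ := fun y => Y (((1 / 2 : ℝ) : ℂ) + (u + y : ℝ) * I) with hA
  set A0 : ℝ → ℂ := fun y => κ * cexp ((B * (u + y) + η * Real.log u : ℝ) * I) with hA0
  set X : ℝ → ℂ := fun y => cexp ((-(ν * (u + y)) : ℝ) * I) with hX
  set g : ℝ → ℂ := fun y => gs β ((0 : ℝ) + y * I) with hg
  have hgc : Continuous g := continuous_gs β _
  have hAc : ContinuousOn A (Icc (-R) R) := continuousOn_Y0 hY (1 / 2) u R ht₀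
  have hA0c : Continuous A0 := by
    simp only [hA0]
    fun_prop
  have hXc : Continuous X := by
    simp only [hX]
    fun_prop
  have e2 : (∫ y in (-R)..R, F (((1 / 2 : ℝ) : ℂ) + (u + y : ℝ) * I)) =
      ∫ y in (-R)..R, X y * A y * g y := by
    refine intervalIntegral.integral_congr fun y _ => ?_
    simp only [hF, hX, hA, hg]
    rw [show (((1 / 2 : ℝ) : ℂ) + (u + y : ℝ) * I - 1 / 2 - u * I : ℂ) = (0 : ℝ) + y * I by
        push_cast; ring,
      show (-(ν : ℂ) * (((1 / 2 : ℝ) : ℂ) + (u + y : ℝ) * I - 1 / 2) : ℂ) =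
        (-(ν * (u + y)) : ℝ) * I by push_cast; ring]
  have e3 : (∫ y in (-R)..R, X y * A y * g y) = (∫ y in (-R)..R, X y * (A y - A0 y) * g y) +
      ∫ y in (-R)..R, X y * A0 y * g y := by
    have c1 : IntervalIntegrable (fun y => X y * (A y - A0 y) * g y) volume (-R) R :=
      ((hXc.continuousOn.mul (hAc.sub hA0c.continuousOn)).mul
        hgc.continuousOn).intervalIntegrable_of_Icc hRR
    have c2 : IntervalIntegrable (fun y => X y * A0 y * g y) volume (-R) R :=
      ((hXc.mul hA0c).mul hgc).intervalIntegrable _ _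
    rw [← intervalIntegral.integral_add c1 c2]
    refine intervalIntegral.integral_congr fun y _ => ?_
    show X y * A y * g y = X y * (A y - A0 y) * g y + X y * A0 y * g y
    ring
  have e4 : (∫ y in (-R)..R, X y * A0 y * g y) =
      κ * cexp ((η * Real.log u : ℝ) * I) * (cexp (((B - ν) * u : ℝ) * I) *
      ∫ y in (-R)..R, cexp (((B - ν : ℝ) : ℂ) * ((0 : ℝ) + y * I)) *
        gs β ((0 : ℝ) + y * I)) := by
    rw [← intervalIntegral.integral_const_mul, ← intervalIntegral.integral_const_mul]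
    refine intervalIntegral.integral_congr fun y _ => ?_
    simp only [hX, hA0, hg]
    have h1 : cexp ((-(ν * (u + y)) : ℝ) * I) * cexp ((B * (u + y) + η * Real.log u : ℝ) * I) =
        cexp ((η * Real.log u : ℝ) * I) * (cexp (((B - ν) * u : ℝ) * I) *
          cexp (((B - ν : ℝ) : ℂ) * ((0 : ℝ) + y * I))) := by
      rw [← Complex.exp_add, ← Complex.exp_add, ← Complex.exp_add]
      congr 1
      push_cast
      ring
    linear_combination (κ * gs β ((0 : ℝ) + y * I)) * h1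
  have hb : ‖∫ y in (-R)..R, X y * (A y - A0 y) * g y‖ ≤ |C'| / (T - R) + |η| * (R / (T - R)) := by
    have h1 : ‖∫ y in (-R)..R, X y * (A y - A0 y) * g y‖ ≤
        ∫ y in (-R)..R, (|C'| / (T - R) + |η| * (R / (T - R))) * ‖g y‖ := by
      refine intervalIntegral.norm_integral_le_of_norm_le hRR ?_
        ((continuous_const.mul hgc.norm).intervalIntegrable _ _)
      refine Eventually.of_forall fun y hy => ?_
      have hy' : |y| ≤ R := abs_le.2 ⟨hy.1.le, hy.2⟩
      rw [norm_mul, norm_mul]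
      refine mul_le_mul_of_nonneg_right ?_ (norm_nonneg _)
      have hX1 : ‖X y‖ = 1 := by
        simp only [hX]
        rw [Complex.norm_exp_ofReal_mul_I]
      rw [hX1, one_mul]
      have h2 : A y - A0 y = (Y (1 / 2 + ((u + y : ℝ) : ℂ) * I) -
          κ * cexp ((B * (u + y) + η * Real.log (u + y) : ℝ) * I)) +
          κ * (cexp ((B * (u + y) + η * Real.log (u + y) : ℝ) * I) -
            cexp ((B * (u + y) + η * Real.log u : ℝ) * I)) := by
        simp only [hA, hA0]
        rw [show (((1 / 2 : ℝ) : ℂ)) = 1 / 2 by push_cast; ring]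
        ring
      rw [h2]
      refine (norm_add_le _ _).trans (add_le_add ?_ ?_)
      · refine (hmain (u + y) (by linarith [hy.1])).trans ?_
        have h3 : T - R ≤ u + y := by linarith [hy.1]
        calc C' / (u + y) ≤ |C'| / (u + y) :=
              div_le_div_of_nonneg_right (le_abs_self _) (by linarith)
          _ ≤ |C'| / (T - R) := div_le_div_of_nonneg_left (abs_nonneg _) hTR h3
      · rw [norm_mul, hY.norm_κ, one_mul]
        refine (norm_cexp_sub_le _ _).trans ?_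
        have h3 : B * (u + y) + η * Real.log (u + y) - (B * (u + y) + η * Real.log u) =
            η * (Real.log (u + y) - Real.log u) := by ring
        rw [h3, abs_mul]
        exact mul_le_mul_of_nonneg_left (log_sub_le hR hRT hu hy') (abs_nonneg _)
    rw [intervalIntegral.integral_const_mul] at h1
    have h2 := intervalIntegral_norm_gs_le hβ 0 R hR
    have h3 : Real.exp ((0 : ℝ) ^ 2 / β ^ 2) = 1 := by simp
    rw [h3] at h2
    have h4 : (∫ y in (-R)..R, ‖g y‖) ≤ 1 := h2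
    refine h1.trans ?_
    have h5 : 0 ≤ |C'| / (T - R) + |η| * (R / (T - R)) := by positivity
    calc _ ≤ (|C'| / (T - R) + |η| * (R / (T - R))) * 1 := mul_le_mul_of_nonneg_left h4 h5
      _ = _ := mul_one _
  -- combination
  set J : ℂ := ∫ y in (-R)..R, cexp (((B - ν : ℝ) : ℂ) * ((0 : ℝ) + y * I)) *
    gs β ((0 : ℝ) + y * I) with hJ
  have e5 : (∫ y in (-R)..R, cexp (-(ν : ℂ) * (β + (u + y : ℝ) * I)) *
        Y (1 / 2 + β + (u + y : ℝ) * I) * gs β (β + y * I)) -
      κ * cexp ((η * Real.log u : ℝ) * I) * (cexp (((B - ν) * u : ℝ) * I) *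
        Real.exp (-((B - ν) * β) ^ 2 / 4)) =
      ((∫ y in (-R)..R, F (((1 / 2 + β : ℝ) : ℂ) + (u + y : ℝ) * I)) -
        ∫ y in (-R)..R, F (((1 / 2 : ℝ) : ℂ) + (u + y : ℝ) * I)) +
      (∫ y in (-R)..R, X y * (A y - A0 y) * g y) +
      κ * cexp ((η * Real.log u : ℝ) * I) * (cexp (((B - ν) * u : ℝ) * I) *
        (J - Real.exp (-((B - ν) * β) ^ 2 / 4))) := by
    rw [e1, e2, e3, e4]
    ring
  rw [e5]
  refine (norm_add₃_le).trans ?_
  refine add_le_add (add_le_add ?_ hb) ?_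
  · refine key.trans (le_of_eq ?_)
    ring
  · rw [norm_mul, norm_mul, norm_mul, hY.norm_κ, Complex.norm_exp_ofReal_mul_I,
      Complex.norm_exp_ofReal_mul_I]
    simp

theorem kk0 : T_KK0 := by
  intro ι _ f Y κ B η t₀ hY
  obtain ⟨β₁, hβ₁, hPr⟩ := norm_Pr_sub_one f
  refine ⟨β₁, hβ₁, fun β hβ ε hε => ?_⟩
  obtain ⟨hx, -⟩ := hPr β hβ
  have hβpos : 0 < β := hβ₁.trans_le hβ
  obtain ⟨C, hC, hgrow⟩ := hY.growth (1 / 2 + β)
  obtain ⟨C', hmain⟩ := hY.main
  have he : 0 < Real.exp 1 := Real.exp_pos 1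
  have hπ : 0 < Real.sqrt Real.pi := Real.sqrt_pos.2 Real.pi_pos
  obtain ⟨N, hN⟩ := te f (β := β) hx (ε := ε / (2 * C * Real.exp 1)) (by positivity)
  refine ⟨bx ι N, fun z hz l => (mem_bx.1 hz l).1, fun Z hZ hpos => ?_⟩
  have hTE := hN Z hZ hpos
  -- smallness
  have hlog : Tendsto (fun T : ℝ => Real.log T / T) atTop (𝓝 0) := by
    have := Real.isLittleO_log_id_atTop.tendsto_div_nhds_zero
    simpa using this
  have hsub : Tendsto (fun T : ℝ => T - Real.log T) atTop atTop := by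
    have h1 : ∀ᶠ T : ℝ in atTop, 1 / 2 * T ≤ T - Real.log T := by
      filter_upwards [hlog.eventually_le_const (show (0 : ℝ) < 1 / 2 by norm_num),
        eventually_gt_atTop (0 : ℝ)] with T h1 h2
      rw [div_le_iff₀ h2] at h1
      linarith
    exact tendsto_atTop_mono' _ h1 (tendsto_id.const_mul_atTop (by norm_num))
  have hl1 : Tendsto (fun T : ℝ => 2 * β * (C * (Real.exp (1 - 1 / β ^ 2 * Real.log T ^ 2) /
      (β * Real.sqrt Real.pi)))) atTop (𝓝 (2 * β * (C * (0 / (β * Real.sqrt Real.pi))))) := by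
    have h1 := tend_aux 0 1 (1 / β ^ 2) (by positivity)
    simp only [zero_mul, zero_add] at h1
    exact ((h1.div_const _).const_mul _).const_mul _
  have hl2 : Tendsto (fun T : ℝ => |C'| / (T - Real.log T)) atTop (𝓝 0) :=
    hsub.const_div_atTop |C'|
  have hl3 : Tendsto (fun T : ℝ => Real.log T / (T - Real.log T)) atTop (𝓝 0) := by
    have h1 : Tendsto (fun T : ℝ => 2 * (Real.log T / T)) atTop (𝓝 0) := by
      simpa using hlog.const_mul 2
    refine tendsto_of_tendsto_of_tendsto_of_le_of_le' tendsto_const_nhds h1 ?_ ?_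
    · filter_upwards [hsub.eventually_gt_atTop 0, eventually_ge_atTop (1 : ℝ)] with T h2 h3
      have := Real.log_nonneg h3
      positivity
    · filter_upwards [hlog.eventually_le_const (show (0 : ℝ) < 1 / 2 by norm_num),
        eventually_ge_atTop (1 : ℝ)] with T h2 h3
      have h4 := Real.log_nonneg h3
      have h5 : 0 < T := by linarith
      rw [div_le_iff₀ h5] at h2
      have h6 : 2 * (Real.log T / T) = Real.log T / (T / 2) := by field_simp
      rw [h6]
      exact div_le_div_of_nonneg_left h4 (by positivity) (by linarith)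
  have hl4 : Tendsto (fun T : ℝ => ∑ z ∈ Z, ‖cz f z‖ *
      (2 * β * (C * (Real.exp (1 - 1 / β ^ 2 * Real.log T ^ 2) / (β * Real.sqrt Real.pi))) +
      (|C'| / (T - Real.log T) + |η| * (Real.log T / (T - Real.log T))) +
      ‖(∫ y in (-Real.log T)..(Real.log T), cexp (((B - fr f z : ℝ) : ℂ) * ((0 : ℝ) + y * I)) *
        gs β ((0 : ℝ) + y * I)) - Real.exp (-((B - fr f z) * β) ^ 2 / 4)‖)) atTop
      (𝓝 (∑ z ∈ Z, ‖cz f z‖ * (2 * β * (C * (0 / (β * Real.sqrt Real.pi))) +
        (0 + |η| * 0) + 0))) := by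
    refine tendsto_finsetSum _ fun z _ => ?_
    refine Tendsto.const_mul _ ((hl1.add (hl2.add (hl3.const_mul _))).add ?_)
    have h1 := tendsto_iff_norm_sub_tendsto_zero.1 (tendsto_exp_gs hβpos (B - fr f z) 0)
    exact h1.comp Real.tendsto_log_atTop
  simp only [zero_div, mul_zero, add_zero, Finset.sum_const_zero] at hl4
  obtain ⟨T₀, hT₀⟩ := eventually_atTop.1
    ((hl4.eventually_le_const (show (0 : ℝ) < ε / 2 by positivity)).and
      ((hsub.eventually_ge_atTop t₀).and ((hsub.eventually_gt_atTop 0).and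
        (eventually_ge_atTop (1 : ℝ)))))
  refine ⟨T₀, fun T hT u hu => ?_⟩
  obtain ⟨h1, h2, h3, h4⟩ := hT₀ T hT
  set R : ℝ := Real.log T with hR
  have hR0 : 0 ≤ R := Real.log_nonneg h4
  have hRR : -R ≤ R := by linarith
  have ht₀ : t₀ ≤ u - R := by linarith [hu.1]
  set g : ℝ → ℂ := fun y => Y (((1 / 2 + β : ℝ) : ℂ) + (u + y : ℝ) * I) * gs β (β + y * I) with hg
  set P : ℝ → ℂ := fun y => Pr f (1 / 2 + β + (u + y : ℝ) * I) with hPdef
  set Q : (ι → ℕ) → ℝ → ℂ := fun z y => cz f z *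
    cexp (-(fr f z : ℂ) * (β + (u + y : ℝ) * I)) with hQ
  have hgc : ContinuousOn g (Icc (-R) R) := by
    have c1 := continuousOn_Y0 hY (1 / 2 + β) u R ht₀
    exact c1.mul (continuous_gs β (β : ℂ)).continuousOn
  have hPc : Continuous P := by
    have h3 := continuous_Pr f (1 / 2 + β) (fun l => by
      have := hx l
      rw [add_sub_cancel_left]; linarith)
    have h4 : P = (fun t : ℝ => Pr f (((1 / 2 + β : ℝ) : ℂ) + t * I)) ∘ fun y => (u + y) := by
      funext y
      simp only [hPdef, Function.comp]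
      congr 1
      push_cast; ring
    rw [h4]
    exact h3.comp (by fun_prop)
  have hQc : ∀ z, Continuous (Q z) := by
    intro z
    simp only [hQ]
    fun_prop
  have e1 : KK f Y β R u = ∫ y in (-R)..R, P y * g y := by
    unfold KK
    refine intervalIntegral.integral_congr fun y _ => ?_
    simp only [hPdef, hg]
    rw [show (((1 / 2 + β : ℝ) : ℂ) + (u + y : ℝ) * I) = 1 / 2 + β + (u + y : ℝ) * I by
      push_cast; ring]
    ring
  have e2 : (∫ y in (-R)..R, P y * g y) = (∫ y in (-R)..R, (P y - ∑ z ∈ Z, Q z y) * g y) +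
      ∑ z ∈ Z, ∫ y in (-R)..R, Q z y * g y := by
    have hii : ∀ z ∈ Z, IntervalIntegrable (fun y => Q z y * g y) volume (-R) R := fun z _ =>
      ((hQc z).continuousOn.mul hgc).intervalIntegrable_of_Icc hRR
    rw [← intervalIntegral.integral_finsetSum hii]
    have c1 : IntervalIntegrable (fun y : ℝ => (P y - ∑ z ∈ Z, Q z y) * g y) volume (-R) R :=
      ((hPc.sub (continuous_finsetSum _ fun z _ => hQc z)).continuousOn.mul
        hgc).intervalIntegrable_of_Icc hRR
    have c2 : IntervalIntegrable (fun y : ℝ => ∑ z ∈ Z, Q z y * g y) volume (-R) R :=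
      (continuousOn_finsetSum _ fun z _ =>
        (hQc z).continuousOn.mul hgc).intervalIntegrable_of_Icc hRR
    have := intervalIntegral.integral_add c1 c2
    rw [← this]
    refine intervalIntegral.integral_congr fun y _ => ?_
    show P y * g y = (P y - ∑ z ∈ Z, Q z y) * g y + ∑ z ∈ Z, Q z y * g y
    rw [← Finset.sum_mul]
    ring
  have e3 : ∀ z, ∫ y in (-R)..R, Q z y * g y = cz f z *
      ∫ y in (-R)..R, cexp (-((fr f z : ℝ) : ℂ) * (β + (u + y : ℝ) * I)) *
        Y (1 / 2 + β + (u + y : ℝ) * I) * gs β (β + y * I) := by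
    intro z
    rw [← intervalIntegral.integral_const_mul]
    refine intervalIntegral.integral_congr fun y _ => ?_
    simp only [hQ, hg]
    rw [show (((1 / 2 + β : ℝ) : ℂ) + (u + y : ℝ) * I) = 1 / 2 + β + (u + y : ℝ) * I by
      push_cast; ring]
    ring
  have e4 : KK f Y β R u - kA f κ B η β Z u = (∫ y in (-R)..R, (P y - ∑ z ∈ Z, Q z y) * g y) +
      ∑ z ∈ Z, cz f z * ((∫ y in (-R)..R, cexp (-((fr f z : ℝ) : ℂ) * (β + (u + y : ℝ) * I)) *
        Y (1 / 2 + β + (u + y : ℝ) * I) * gs β (β + y * I)) -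
        κ * cexp ((η * Real.log u : ℝ) * I) * (cexp (((B - fr f z) * u : ℝ) * I) *
        Real.exp (-((B - fr f z) * β) ^ 2 / 4))) := by
    rw [e1, e2, kA, add_sub_assoc, Finset.mul_sum, ← Finset.sum_sub_distrib]
    congr 1
    refine Finset.sum_congr rfl fun z _ => ?_
    rw [e3 z]
    ring
  have h5 : ‖∫ y in (-R)..R, (P y - ∑ z ∈ Z, Q z y) * g y‖ ≤
      ∫ y in (-R)..R, (ε / (2 * C * Real.exp 1) * C) * ‖gs β (β + y * I)‖ := by
    refine intervalIntegral.norm_integral_le_of_norm_le hRR ?_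
      ((continuous_const.mul (continuous_gs β (β : ℂ)).norm).intervalIntegrable _ _)
    refine Eventually.of_forall fun y hy => ?_
    rw [norm_mul]
    simp only [hg]
    rw [norm_mul, mul_assoc]
    refine mul_le_mul ?_ ?_ (by positivity) (by positivity)
    · have h4 := hTE (β + (u + y : ℝ) * I) (by simp)
      rw [← add_assoc] at h4
      exact h4
    · refine mul_le_mul_of_nonneg_right ?_ (norm_nonneg _)
      exact hgrow (1 / 2 + β) (u + y) (by linarith) le_rfl (by linarith [hy.1])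
  rw [intervalIntegral.integral_const_mul] at h5
  have h6 := intervalIntegral_norm_gs_le hβpos β R hR0
  have h7 : Real.exp (β ^ 2 / β ^ 2) = Real.exp 1 := by
    congr 1
    field_simp
  rw [h7] at h6
  have h8 : ε / (2 * C * Real.exp 1) * C * (∫ y in (-R)..R, ‖gs β (β + y * I)‖) ≤ ε / 2 := by
    calc ε / (2 * C * Real.exp 1) * C * (∫ y in (-R)..R, ‖gs β (β + y * I)‖)
        ≤ ε / (2 * C * Real.exp 1) * C * Real.exp 1 :=
          mul_le_mul_of_nonneg_left h6 (by positivity)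
      _ = ε / 2 := by field_simp
  rw [e4]
  refine (norm_add_le _ _).trans ?_
  have h9 : ‖∑ z ∈ Z, cz f z * ((∫ y in (-R)..R, cexp (-((fr f z : ℝ) : ℂ) *
        (β + (u + y : ℝ) * I)) * Y (1 / 2 + β + (u + y : ℝ) * I) * gs β (β + y * I)) -
        κ * cexp ((η * Real.log u : ℝ) * I) * (cexp (((B - fr f z) * u : ℝ) * I) *
        Real.exp (-((B - fr f z) * β) ^ 2 / 4)))‖ ≤ ε / 2 := by
    refine (norm_sum_le _ _).trans (le_trans (Finset.sum_le_sum fun z _ => ?_) h1)
    rw [norm_mul]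
    refine mul_le_mul_of_nonneg_left ?_ (norm_nonneg _)
    exact one_tuple hY hβpos (fr_nonneg f z) hC hgrow hmain hR0 (by linarith) h2 hu.1
  linarith

end Pool.Agent.H87.MZ
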