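import Pool.Agent.H87.MZ.Tup

/-!
# Zeros of L-functions, equal densities: module LL0
helper87
-/

set_option autoImplicit false

open Complex MeasureTheory Set Filter Topology

namespace Pool.Agent.H87.MZ

open Pool.Agent.H25.DL Pool.Agent.H25.MZ Pool.Agent.H11.DL

theorem ll0 : T_LL0 := by
  intro ι _ f
  obtain ⟨β₁, hβ₁, hP⟩ := norm_Pr_sub_one fun l => (f l).bar
  refine ⟨β₁, hβ₁, fun β hβ ε hε => ?_⟩
  obtain ⟨hx, -⟩ := hP β hβ
  have hβpos : 0 < β := hβ₁.trans_le hβ
  have he : 0 < Real.exp 1 := Real.exp_pos 1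
  obtain ⟨N, hN⟩ := te (fun l => (f l).bar) (β := β) hx (ε := ε / (2 * Real.exp 1)) (by positivity)
  refine ⟨bx ι N, fun z hz l => (mem_bx.1 hz l).1, fun Z hZ hpos => ?_⟩
  have hTE := hN Z hZ hpos
  -- the limits of the integrals
  have hlim : Tendsto (fun R : ℝ => ∑ z ∈ Z, ‖cz f z‖ *
      ‖(∫ y in (-R)..R, cexp ((fr f z : ℝ) * ((-β : ℝ) + y * I)) * gs β ((-β : ℝ) + y * I)) -
        Real.exp (-(fr f z * β) ^ 2 / 4)‖) atTop (𝓝 (∑ z ∈ Z, ‖cz f z‖ * 0)) := by
    refine tendsto_finsetSum _ fun z _ => ?_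
    refine Tendsto.const_mul _ ?_
    exact tendsto_iff_norm_sub_tendsto_zero.1 (tendsto_exp_gs hβpos (fr f z) (-β))
  simp only [mul_zero, Finset.sum_const_zero] at hlim
  obtain ⟨R₀, hR₀⟩ := eventually_atTop.1
    ((hlim.eventually_le_const (show (0 : ℝ) < ε / 2 by positivity)).and
      (eventually_ge_atTop (0 : ℝ)))
  refine ⟨R₀, fun R hR u => ?_⟩
  obtain ⟨h1, h2⟩ := hR₀ R hR
  set g : ℝ → ℂ := fun y => gs β ((-β : ℝ) + y * I) with hg
  set P : ℝ → ℂ := fun y => Pr (fun l => (f l).bar) (1 / 2 + β - (u + y : ℝ) * I) with hPdef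
  set Q : (ι → ℕ) → ℝ → ℂ := fun z y => (starRingEnd ℂ) (cz f z) *
    cexp (-(fr f z : ℂ) * (β - (u + y : ℝ) * I)) with hQ
  have hgc : Continuous g := continuous_gs β _
  have hPc : Continuous P := by
    have h3 := continuous_Pr (fun l => (f l).bar) (1 / 2 + β) (fun l => by
      have := hx l
      rw [add_sub_cancel_left]; linarith)
    have h4 : P = (fun t : ℝ => Pr (fun l => (f l).bar) (((1 / 2 + β : ℝ) : ℂ) + t * I)) ∘
        fun y => -(u + y) := by
      funext y
      simp only [hPdef, Function.comp]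
      congr 1
      push_cast; ring
    rw [h4]
    exact h3.comp (by fun_prop)
  have hQc : ∀ z, Continuous (Q z) := by
    intro z
    simp only [hQ]
    fun_prop
  have e1 : LL f β R u = ∫ y in (-R)..R, P y * g y := by
    unfold LL
    refine intervalIntegral.integral_congr fun y _ => ?_
    simp only [hPdef, hg]
    push_cast
    rfl
  have e2 : (∫ y in (-R)..R, P y * g y) = (∫ y in (-R)..R, (P y - ∑ z ∈ Z, Q z y) * g y) +
      ∑ z ∈ Z, ∫ y in (-R)..R, Q z y * g y := by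
    have hii : ∀ z ∈ Z, IntervalIntegrable (fun y => Q z y * g y) volume (-R) R := fun z _ =>
      ((hQc z).mul hgc).intervalIntegrable (μ := volume) (-R) R
    rw [← intervalIntegral.integral_finsetSum hii]
    have c1 : Continuous fun y : ℝ => (P y - ∑ z ∈ Z, Q z y) * g y :=
      (hPc.sub (continuous_finsetSum _ fun z _ => hQc z)).mul hgc
    have c2 : Continuous fun y : ℝ => ∑ z ∈ Z, Q z y * g y :=
      continuous_finsetSum _ fun z _ => (hQc z).mul hgc
    have := intervalIntegral.integral_add (f := fun y : ℝ => (P y - ∑ z ∈ Z, Q z y) * g y)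
      (g := fun y : ℝ => ∑ z ∈ Z, Q z y * g y)
      (c1.intervalIntegrable (μ := volume) (-R) R) (c2.intervalIntegrable (-R) R)
    rw [← this]
    refine intervalIntegral.integral_congr fun y _ => ?_
    show P y * g y = (P y - ∑ z ∈ Z, Q z y) * g y + ∑ z ∈ Z, Q z y * g y
    rw [← Finset.sum_mul]
    ring
  have e3 : ∀ z, ∫ y in (-R)..R, Q z y * g y = (starRingEnd ℂ) (cz f z) *
      cexp ((fr f z * u : ℝ) * I) *
      ∫ y in (-R)..R, cexp ((fr f z : ℝ) * ((-β : ℝ) + y * I)) * gs β ((-β : ℝ) + y * I) := by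
    intro z
    rw [← intervalIntegral.integral_const_mul]
    refine intervalIntegral.integral_congr fun y _ => ?_
    simp only [hQ, hg]
    have : cexp (-(fr f z : ℂ) * (β - (u + y : ℝ) * I)) =
        cexp ((fr f z * u : ℝ) * I) * cexp ((fr f z : ℝ) * ((-β : ℝ) + y * I)) := by
      rw [← Complex.exp_add]
      congr 1
      push_cast
      ring
    rw [this]
    ring
  have e4 : LL f β R u - lA f β Z u = (∫ y in (-R)..R, (P y - ∑ z ∈ Z, Q z y) * g y) +
      ∑ z ∈ Z, (starRingEnd ℂ) (cz f z) * cexp ((fr f z * u : ℝ) * I) *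
        ((∫ y in (-R)..R, cexp ((fr f z : ℝ) * ((-β : ℝ) + y * I)) * gs β ((-β : ℝ) + y * I)) -
          Real.exp (-(fr f z * β) ^ 2 / 4)) := by
    rw [e1, e2, lA, add_sub_assoc, ← Finset.sum_sub_distrib]
    congr 1
    refine Finset.sum_congr rfl fun z _ => ?_
    rw [e3 z]
    ring
  have h3 : ‖∫ y in (-R)..R, (P y - ∑ z ∈ Z, Q z y) * g y‖ ≤
      ∫ y in (-R)..R, ε / (2 * Real.exp 1) * ‖g y‖ := by
    refine intervalIntegral.norm_integral_le_of_norm_le (by linarith) ?_
      ((continuous_const.mul hgc.norm).intervalIntegrable _ _)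
    refine Eventually.of_forall fun y _ => ?_
    rw [norm_mul]
    refine mul_le_mul_of_nonneg_right ?_ (norm_nonneg _)
    have h4 := hTE (β - (u + y : ℝ) * I) (by simp)
    simp only [fr_bar, cz_bar] at h4
    rw [← add_sub_assoc] at h4
    exact h4
  rw [intervalIntegral.integral_const_mul] at h3
  have h4 := intervalIntegral_norm_gs_le hβpos (-β) R h2
  have h5 : Real.exp ((-β) ^ 2 / β ^ 2) = Real.exp 1 := by
    congr 1
    field_simp
  rw [h5] at h4
  have h7 : (∫ y in (-R)..R, ‖g y‖) ≤ Real.exp 1 := h4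
  have h8 : ε / (2 * Real.exp 1) * (∫ y in (-R)..R, ‖g y‖) ≤ ε / 2 := by
    calc ε / (2 * Real.exp 1) * (∫ y in (-R)..R, ‖g y‖) ≤ ε / (2 * Real.exp 1) * Real.exp 1 :=
          mul_le_mul_of_nonneg_left h7 (by positivity)
      _ = ε / 2 := by field_simp
  rw [e4]
  refine (norm_add_le _ _).trans ?_
  have h9 : ‖∑ z ∈ Z, (starRingEnd ℂ) (cz f z) * cexp ((fr f z * u : ℝ) * I) *
        ((∫ y in (-R)..R, cexp ((fr f z : ℝ) * ((-β : ℝ) + y * I)) * gs β ((-β : ℝ) + y * I)) -
          Real.exp (-(fr f z * β) ^ 2 / 4))‖ ≤ ε / 2 := by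
    refine (norm_sum_le _ _).trans (le_trans (le_of_eq ?_) h1)
    refine Finset.sum_congr rfl fun z _ => ?_
    rw [norm_mul, norm_mul, Complex.norm_exp_ofReal_mul_I, mul_one, RCLike.norm_conj]
  linarith

end Pool.Agent.H87.MZ
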