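import Pool.Agent.H25.MZ.Targets
import Pool.Agent.H11.DL.EX

/-!
# Zeros of L-functions, equal densities: expansion of the product over tuples
helper87
-/

set_option autoImplicit false

open Complex MeasureTheory Set Filter Topology

namespace Pool.Agent.H87.MZ

open Pool.Agent.H25.DL Pool.Agent.H25.MZ Pool.Agent.H11.DL

section tuples

variable {ι : Type} [Fintype ι]

/-- the tuples of positive integers up to `N` -/
noncomputable def bx (ι : Type) [Fintype ι] (N : ℕ) : Finset (ι → ℕ) :=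
  letI := Classical.decEq ι
  Fintype.piFinset fun _ => Finset.Icc 1 N

theorem mem_bx {N : ℕ} {z : ι → ℕ} : z ∈ bx ι N ↔ ∀ l, 1 ≤ z l ∧ z l ≤ N := by
  classical
  unfold bx
  rw [Fintype.mem_piFinset]
  simp

theorem bx_mono {N N' : ℕ} (h : N ≤ N') : bx ι N ⊆ bx ι N' := by
  intro z hz
  rw [mem_bx] at hz ⊢
  exact fun l => ⟨(hz l).1, (hz l).2.trans h⟩

theorem sum_bx {R : Type} [CommSemiring R] (g : ι → ℕ → R) (N : ℕ) :
    ∑ z ∈ bx ι N, ∏ l, g l (z l) = ∏ l, ∑ n ∈ Finset.Icc 1 N, g l n := by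
  classical
  unfold bx
  rw [Finset.prod_univ_sum]

theorem tend_Icc {E : Type} [NormedAddCommGroup E] [CompleteSpace E] (g : ℕ → E) (h0 : g 0 = 0)
    (hs : Summable g) : Tendsto (fun N : ℕ => ∑ n ∈ Finset.Icc 1 N, g n) atTop (𝓝 (∑' n, g n)) := by
  have h1 := (tendsto_add_atTop_iff_nat 1).2 hs.hasSum.tendsto_sum_nat
  refine h1.congr fun N => ?_
  rw [Finset.range_eq_Ico, Finset.sum_eq_sum_Ico_succ_bot (by omega), h0, zero_add]
  rfl

theorem tail {a : ι → ℕ → ℝ} (ha : ∀ l n, 0 ≤ a l n) (h0 : ∀ l, a l 0 = 0)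
    (hs : ∀ l, Summable (a l)) {ε : ℝ} (hε : 0 < ε) :
    ∃ N : ℕ, ∀ N' : ℕ, N ≤ N' →
      ∑ z ∈ bx ι N', ∏ l, a l (z l) - ∑ z ∈ bx ι N, ∏ l, a l (z l) ≤ ε := by
  have h1 : Tendsto (fun N : ℕ => ∏ l, ∑ n ∈ Finset.Icc 1 N, a l n) atTop
      (𝓝 (∏ l, ∑' n, a l n)) := tendsto_finsetProd _ fun l _ => tend_Icc (a l) (h0 l) (hs l)
  have h2 := h1.eventually_const_lt (show (∏ l, ∑' n, a l n) - ε < ∏ l, ∑' n, a l n by linarith)
  obtain ⟨N, hN⟩ := eventually_atTop.1 h2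
  refine ⟨N, fun N' _ => ?_⟩
  rw [sum_bx, sum_bx]
  have h3 := hN N le_rfl
  have h4 : ∏ l, ∑ n ∈ Finset.Icc 1 N', a l n ≤ ∏ l, ∑' n, a l n := by
    refine Finset.prod_le_prod (fun l _ => Finset.sum_nonneg fun n _ => ha l n) fun l _ => ?_
    exact (hs l).sum_le_tsum _ fun n _ => ha l n
  linarith

theorem approx {a : ι → ℕ → ℝ} (ha : ∀ l n, 0 ≤ a l n) {N : ℕ} {ε : ℝ}
    (htail : ∀ N' : ℕ, N ≤ N' →
      ∑ z ∈ bx ι N', ∏ l, a l (z l) - ∑ z ∈ bx ι N, ∏ l, a l (z l) ≤ ε)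
    (c : ι → ℕ → ℂ) (hc : ∀ l n, ‖c l n‖ ≤ a l n) (hc0 : ∀ l, c l 0 = 0)
    (hs : ∀ l, Summable (c l)) (Z : Finset (ι → ℕ)) (hZ : bx ι N ⊆ Z)
    (hpos : ∀ z ∈ Z, ∀ l, 1 ≤ z l) :
    ‖(∏ l, ∑' n, c l n) - ∑ z ∈ Z, ∏ l, c l (z l)‖ ≤ ε := by
  classical
  have h1 : Tendsto (fun N : ℕ => ∑ z ∈ bx ι N, ∏ l, c l (z l)) atTop
      (𝓝 (∏ l, ∑' n, c l n)) := by
    simp only [sum_bx]
    exact tendsto_finsetProd _ fun l _ => tend_Icc (c l) (hc0 l) (hs l)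
  have h2 : Tendsto (fun N : ℕ => ‖∑ z ∈ bx ι N, ∏ l, c l (z l) - ∑ z ∈ Z, ∏ l, c l (z l)‖) atTop
      (𝓝 ‖(∏ l, ∑' n, c l n) - ∑ z ∈ Z, ∏ l, c l (z l)‖) := (h1.sub_const _).norm
  set M : ℕ := ∑ z ∈ Z, ∑ l, z l with hM
  have hZM : ∀ N' : ℕ, M ≤ N' → Z ⊆ bx ι N' := by
    intro N' hN' z hz
    rw [mem_bx]
    intro l
    refine ⟨hpos z hz l, le_trans ?_ hN'⟩
    rw [hM]
    calc z l ≤ ∑ l, z l := Finset.single_le_sum (f := fun l => z l) (fun _ _ => Nat.zero_le _)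
          (Finset.mem_univ l)
      _ ≤ _ := Finset.single_le_sum (f := fun z : ι → ℕ => ∑ l, z l) (fun _ _ => Nat.zero_le _) hz
  refine le_of_tendsto h2 ?_
  filter_upwards [eventually_ge_atTop (max M N)] with N' hN'
  have hs1 := hZM N' ((le_max_left _ _).trans hN')
  rw [← Finset.sum_sdiff_eq_sub hs1]
  refine (norm_sum_le _ _).trans ?_
  have h3 : ∑ z ∈ bx ι N' \ Z, ‖∏ l, c l (z l)‖ ≤ ∑ z ∈ bx ι N' \ bx ι N, ∏ l, a l (z l) := by
    refine (Finset.sum_le_sum fun z _ => ?_).trans (Finset.sum_le_sum_of_subset_of_nonneg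
      (f := fun z => ∏ l, a l (z l)) (Finset.sdiff_subset_sdiff (le_refl _) hZ)
      fun z _ _ => Finset.prod_nonneg fun l _ => ha l _)
    rw [norm_prod]
    exact Finset.prod_le_prod (fun l _ => norm_nonneg _) fun l _ => hc l _
  refine h3.trans ?_
  rw [Finset.sum_sdiff_eq_sub (bx_mono ((le_max_right _ _).trans hN'))]
  exact htail N' ((le_max_right _ _).trans hN')

end tuples

section expansion

variable {ι : Type} [Fintype ι]

theorem term_eq (f : Fac) (n : ℕ) (hn : 1 ≤ n) (w : ℂ) :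
    f.c n * (n : ℂ) ^ (-(wl f.r f.τ (1 / 2 + w))) =
      (f.c n * (n : ℂ) ^ (-(1 / 2 + f.τ * I : ℂ))) * cexp (-((f.r * Real.log n : ℝ) : ℂ) * w) := by
  have hn' : (n : ℂ) ≠ 0 := by exact_mod_cast (by omega : n ≠ 0)
  have h1 : -(wl f.r f.τ (1 / 2 + w)) = -(1 / 2 + f.τ * I : ℂ) + -(f.r * w) := by
    unfold wl
    ring
  rw [h1, Complex.cpow_add _ _ hn', ← mul_assoc]
  congr 1
  rw [Complex.cpow_def_of_ne_zero hn', ← Complex.natCast_log]
  congr 1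
  push_cast
  ring

theorem prod_term (f : ι → Fac) (z : ι → ℕ) (hz : ∀ l, 1 ≤ z l) (w : ℂ) :
    ∏ l, (f l).c (z l) * ((z l : ℕ) : ℂ) ^ (-(wl (f l).r (f l).τ (1 / 2 + w))) =
      cz f z * cexp (-(fr f z : ℂ) * w) := by
  have h1 : ∀ l, (f l).c (z l) * ((z l : ℕ) : ℂ) ^ (-(wl (f l).r (f l).τ (1 / 2 + w))) =
      ((f l).c (z l) * ((z l : ℕ) : ℂ) ^ (-(1 / 2 + (f l).τ * I : ℂ))) *
        cexp (-(((f l).r * Real.log (z l) : ℝ) : ℂ) * w) := fun l => term_eq (f l) (z l) (hz l) w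
  rw [Finset.prod_congr rfl fun l _ => h1 l, Finset.prod_mul_distrib, ← Complex.exp_sum]
  unfold cz fr
  congr 2
  rw [← Finset.sum_mul, Finset.sum_neg_distrib]
  push_cast
  ring

theorem fr_nonneg (f : ι → Fac) (z : ι → ℕ) : 0 ≤ fr f z := by
  unfold fr
  refine Finset.sum_nonneg fun l _ => mul_nonneg (f l).r_pos.le (Real.log_natCast_nonneg _)

/-- expansion of the product over tuples, uniform on a line -/
theorem te (f : ι → Fac) {β : ℝ} (hβ : ∀ l, 2 ≤ 1 / 2 + (f l).r * β) {ε : ℝ} (hε : 0 < ε) :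
    ∃ N : ℕ, ∀ Z : Finset (ι → ℕ), bx ι N ⊆ Z → (∀ z ∈ Z, ∀ l, 1 ≤ z l) → ∀ w : ℂ, w.re = β →
      ‖Pr f (1 / 2 + w) - ∑ z ∈ Z, cz f z * cexp (-(fr f z : ℂ) * w)‖ ≤ ε := by
  set a : ι → ℕ → ℝ := fun l n => if n = 0 then 0 else (n : ℝ) ^ (-(1 / 2 + (f l).r * β)) with ha
  have ha0 : ∀ l n, 0 ≤ a l n := by
    intro l n
    simp only [ha]
    split_ifs
    · exact le_rfl
    · positivity
  have hsa : ∀ l, Summable (a l) := by
    intro l
    have h1 : Summable fun n : ℕ => (n : ℝ) ^ (-(1 / 2 + (f l).r * β)) :=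
      Real.summable_nat_rpow.2 (by linarith [hβ l])
    refine Summable.of_nonneg_of_le (ha0 l) (fun n => ?_) h1
    simp only [ha]
    split_ifs
    · positivity
    · exact le_rfl
  obtain ⟨N, hN⟩ := tail ha0 (fun l => by simp [ha]) hsa hε
  refine ⟨N, fun Z hZ hpos w hw => ?_⟩
  have hre : (1 / 2 + w).re - 1 / 2 = β := by
    rw [Complex.add_re, hw]
    norm_num
  have h1 := approx ha0 hN
    (fun l n => (f l).c n * (n : ℂ) ^ (-(wl (f l).r (f l).τ (1 / 2 + w)))) (fun l n => by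
      simp only [ha]
      split_ifs with hn
      · rw [hn, (f l).c_zero, zero_mul, norm_zero]
      · have := norm_term (f l) (1 / 2 + w) n (Nat.pos_of_ne_zero hn)
        rwa [hre] at this)
    (fun l => by simp [(f l).c_zero])
    (fun l => summable_term (f l) (1 / 2 + w) (by rw [hre]; linarith [hβ l])) Z hZ hpos
  have h2 : ∑ z ∈ Z, ∏ l, (f l).c (z l) * ((z l : ℕ) : ℂ) ^ (-(wl (f l).r (f l).τ (1 / 2 + w)))
      = ∑ z ∈ Z, cz f z * cexp (-(fr f z : ℂ) * w) :=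
    Finset.sum_congr rfl fun z hz => prod_term f z (hpos z hz) w
  rw [h2] at h1
  exact h1

theorem fr_bar (f : ι → Fac) (z : ι → ℕ) : fr (fun l => (f l).bar) z = fr f z := rfl

theorem cz_bar (f : ι → Fac) (z : ι → ℕ) :
    cz (fun l => (f l).bar) z = (starRingEnd ℂ) (cz f z) := by
  unfold cz
  rw [map_prod]
  refine Finset.prod_congr rfl fun l _ => ?_
  rw [map_mul]
  congr 1
  have harg : ((z l : ℕ) : ℂ).arg ≠ Real.pi := by
    rw [Complex.natCast_arg]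
    exact Real.pi_pos.ne
  have h2 : (starRingEnd ℂ) ((z l : ℕ) : ℂ) = ((z l : ℕ) : ℂ) := by simp
  have h1 := Complex.cpow_conj ((z l : ℕ) : ℂ) (-(1 / 2 + ((f l).bar).τ * I : ℂ)) harg
  have h3 : (starRingEnd ℂ) (-(1 / 2 + ((f l).bar).τ * I : ℂ)) = -(1 / 2 + (f l).τ * I : ℂ) := by
    simp [Fac.bar, map_ofNat]
  rw [h3, h2] at h1
  rw [h1, Complex.conj_conj]

end expansion

section gauss

/-- completing the square -/
theorem exp_mul_gs {β : ℝ} (hβ : 0 < β) (μ : ℝ) (z : ℂ) :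
    cexp (μ * z) * gs β z = Real.exp (-(μ * β) ^ 2 / 4) * gs β (z + (μ * β ^ 2 / 2 : ℝ)) := by
  have h0 : (β : ℂ) ≠ 0 := by exact_mod_cast hβ.ne'
  unfold gs
  rw [← mul_div_assoc, ← mul_div_assoc]
  congr 1
  rw [Complex.ofReal_exp, ← Complex.exp_add, ← Complex.exp_add]
  congr 1
  push_cast
  field_simp
  ring

theorem integral_exp_gs {β : ℝ} (hβ : 0 < β) (μ x : ℝ) :
    ∫ y : ℝ, cexp (μ * (x + y * I)) * gs β (x + y * I) = Real.exp (-(μ * β) ^ 2 / 4) := by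
  have h1 : ∀ y : ℝ, cexp (μ * (x + y * I)) * gs β (x + y * I) =
      Real.exp (-(μ * β) ^ 2 / 4) * gs β (((x + μ * β ^ 2 / 2 : ℝ) : ℂ) + y * I) := by
    intro y
    rw [exp_mul_gs hβ]
    congr 2
    push_cast
    ring
  simp only [h1]
  rw [integral_const_mul, integral_gs hβ, mul_one]

theorem integrable_exp_gs {β : ℝ} (hβ : 0 < β) (μ x : ℝ) :
    Integrable fun y : ℝ => cexp (μ * (x + y * I)) * gs β (x + y * I) := by
  have h1 : (fun y : ℝ => cexp (μ * (x + y * I)) * gs β (x + y * I)) = fun y : ℝ =>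
      (Real.exp (-(μ * β) ^ 2 / 4) : ℂ) * gs β (((x + μ * β ^ 2 / 2 : ℝ) : ℂ) + y * I) := by
    funext y
    rw [exp_mul_gs hβ]
    congr 2
    push_cast
    ring
  rw [h1]
  exact (integrable_gs hβ _).const_mul _

theorem tendsto_exp_gs {β : ℝ} (hβ : 0 < β) (μ x : ℝ) :
    Tendsto (fun R : ℝ => ∫ y in (-R)..R, cexp (μ * (x + y * I)) * gs β (x + y * I)) atTop
      (𝓝 (Real.exp (-(μ * β) ^ 2 / 4) : ℂ)) := by
  have h := intervalIntegral_tendsto_integral (l := (atTop : Filter ℝ)) (integrable_exp_gs hβ μ x)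
    tendsto_neg_atTop_atBot tendsto_id
  rw [integral_exp_gs hβ] at h
  exact h

end gauss

end Pool.Agent.H87.MZ
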